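import Mathlib
import Pool.Agent.H.MP_725863_an.Unif
import Pool.Agent.H.MP_725863_an.ExpGen

/-! Markovian semigroups on `ℓ¹` with bijective (or only bounded below) `T 1` have a bounded
generator, with a bound that depends only on the lower bound of `T 1`. -/

set_option autoImplicit false

namespace Pool.Agent.Results.MP_725863_an.UniformMarkovGroup

open Filter Topology

/-- The real Banach space of absolutely summable sequences. -/
abbrev Ell1 : Type := lp (fun _ : ℕ => ℝ) 1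

/-- The bounded operators on `ℓ¹`. -/
abbrev Op : Type := Ell1 →L[ℝ] Ell1

/-- All coordinates of `x` are nonnegative. -/
def IsNonneg (x : Ell1) : Prop := ∀ n, 0 ≤ x n

/-- `P` maps nonnegative vectors to nonnegative vectors of the same norm. -/
def IsMarkovOp (P : Op) : Prop := ∀ x : Ell1, IsNonneg x → IsNonneg (P x) ∧ ‖P x‖ = ‖x‖

/-- `T 0 = I` and `T (s + t) = T s T t`. -/
def IsSemigroup (T : NNReal → Op) : Prop :=
  (∀ x : Ell1, T 0 x = x) ∧ ∀ (s t : NNReal) (x : Ell1), T (s + t) x = T s (T t x)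

/-- `t ↦ T t x` is continuous for every `x`. -/
def IsStronglyContinuous (T : NNReal → Op) : Prop :=
  ∀ x : Ell1, Continuous fun t : NNReal => T t x

/-- `T` is a Markovian `C₀`-semigroup on `ℓ¹`. -/
def IsMarkovSemigroup (T : NNReal → Op) : Prop :=
  IsSemigroup T ∧ IsStronglyContinuous T ∧ ∀ t : NNReal, IsMarkovOp (T t)

/-- `(T t x - x) / t → A x` as `t → 0+`, for every `x` in `ℓ¹`. -/
def IsGenerator (T : NNReal → Op) (A : Op) : Prop :=
  ∀ x : Ell1, Tendsto (fun t : NNReal => (t : ℝ)⁻¹ • (T t x - x)) (𝓝[≠] 0) (𝓝 (A x))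

/-- `T t = exp (t A)`: `T t x` is the sum over `n` of `t ^ n / n !` times `A` applied `n` times
to `x`. -/
def IsExponential (T : NNReal → Op) (A : Op) : Prop :=
  ∀ (t : NNReal) (x : Ell1),
    HasSum (fun n : ℕ => ((t : ℝ) ^ n / (n.factorial : ℝ)) • (A^[n] x)) (T t x)

/-- The operator norm of `A` is at most `R`. -/
def NormLe (A : Op) (R : ℝ) : Prop := ∀ x : Ell1, ‖A x‖ ≤ R * ‖x‖

/-- `P` is bounded below by `c`. -/
def BoundedBelow (P : Op) (c : ℝ) : Prop := ∀ x : Ell1, c * ‖x‖ ≤ ‖P x‖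

theorem uniform {c : ℝ} (hc : 0 < c) : ∃ R : ℝ, ∀ T : NNReal → Op,
    IsMarkovSemigroup T → BoundedBelow (T 1) c →
    ∃ A : Op, NormLe A R ∧ IsGenerator T A ∧ IsExponential T A := by
  obtain ⟨m0, hm0⟩ := Pool.Agent.H.MP_725863_an.main_unif hc
  refine ⟨((Pool.Agent.H.MP_725863_an.tm (m0 + 1 + 3) : NNReal) : ℝ)⁻¹, fun T hT hb1 => ?_⟩
  have hS : Pool.Agent.H.MP_725863_an.SG T :=
    { zero := ContinuousLinearMap.ext hT.1.1
      add := fun s t => ContinuousLinearMap.ext (hT.1.2 s t)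
      cont := hT.2.1
      markov := fun t => { pos := fun x hx => (hT.2.2 t x hx).1
                           norm := fun x hx => (hT.2.2 t x hx).2 } }
  have hb : ∀ t : NNReal, t ≤ 1 → ∀ x, c * ‖x‖ ≤ ‖T t x‖ := by
    intro t ht x
    refine (hb1 x).trans ?_
    have h1 : T 1 x = T (1 - t) (T t x) := by
      rw [← hS.apply_add, tsub_add_cancel_of_le ht]
    rw [h1]
    exact (hS.markov _).norm_le _
  have hu := hm0 T hS hb
  have h0 : T 0 = 1 := hS.zero
  have hadd : ∀ s t, T (s + t) = T s * T t := hS.add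
  have hn : ∀ t, ‖T t‖ ≤ 1 := fun t => by
    apply ContinuousLinearMap.opNorm_le_bound _ zero_le_one
    intro x
    rw [one_mul]
    exact (hS.markov _).norm_le _
  have hlim : Tendsto T (𝓝 0) (𝓝 1) := Pool.Agent.H.MP_725863_an.main hS hc hb
  have hcont := Pool.Agent.H.MP_725863_an.sg_continuous h0 hadd hn hlim
  have hnt : Nontrivial Ell1 := by
    refine ⟨⟨Pool.Agent.H.MP_725863_an.e 0, 0, fun h => ?_⟩⟩
    have h1 := Pool.Agent.H.MP_725863_an.norm_e 0
    rw [h, norm_zero] at h1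
    exact zero_ne_one h1
  obtain ⟨A, hA1, hA2, hA3⟩ := Pool.Agent.H.MP_725863_an.sg_exp h0 hadd hcont
    (Pool.Agent.H.MP_725863_an.tm_pos (m0 + 1 + 3)) (fun t ht => by
      apply ContinuousLinearMap.opNorm_le_bound _ (by norm_num)
      intro x
      refine (hu 3 t ht x).trans ?_
      apply mul_le_mul_of_nonneg_right _ (norm_nonneg _)
      norm_num)
  refine ⟨A, fun x => (A.le_opNorm x).trans (mul_le_mul_of_nonneg_right hA1 (norm_nonneg _)),
    fun x => ?_, fun t x => ?_⟩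
  · exact ((ContinuousLinearMap.apply ℝ Ell1 x).continuous.tendsto A).comp hA2
  · letI : NormedAlgebra ℚ Op := NormedAlgebra.restrictScalars ℚ ℝ Op
    have h1 := NormedSpace.exp_series_hasSum_exp' (𝕂 := ℝ) ((t : ℝ) • A)
    rw [← hA3 t] at h1
    have h2 := h1.mapL (ContinuousLinearMap.apply ℝ Ell1 x)
    have h3 : ∀ n : ℕ, (A ^ n) x = A^[n] x := by
      intro n
      induction n with
      | zero => rfl
      | succ n ih =>
        rw [pow_succ', Function.iterate_succ_apply', ← ih]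
        rfl
    have h4 : (fun n : ℕ => ((t : ℝ) ^ n / (n.factorial : ℝ)) • (A^[n] x)) =
        fun n : ℕ => (ContinuousLinearMap.apply ℝ Ell1 x)
          (((n.factorial : ℝ)⁻¹) • ((t : ℝ) • A) ^ n) := by
      funext n
      rw [ContinuousLinearMap.apply_apply, smul_pow, smul_smul, ← h3 n, div_eq_mul_inv, mul_comm]
      rfl
    rw [h4]
    exact h2

/-- The Markov group conjecture, and a uniform form of it. -/
theorem result :
    (∀ T : NNReal → Op, IsMarkovSemigroup T → Function.Bijective (T 1) →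
      ∃ A : Op, IsGenerator T A ∧ IsExponential T A) ∧
    ∀ c : ℝ, 0 < c → ∃ R : ℝ, ∀ T : NNReal → Op, IsMarkovSemigroup T → BoundedBelow (T 1) c →
      ∃ A : Op, NormLe A R ∧ IsGenerator T A ∧ IsExponential T A := by
  refine ⟨fun T hT hbij => ?_, fun c hc => uniform hc⟩
  have hker : LinearMap.ker (T 1 : Ell1 →ₗ[ℝ] Ell1) = ⊥ := LinearMap.ker_eq_bot.2 hbij.1
  have hran : LinearMap.range (T 1 : Ell1 →ₗ[ℝ] Ell1) = ⊤ := LinearMap.range_eq_top.2 hbij.2
  set E := ContinuousLinearEquiv.ofBijective (T 1) hker hran with hE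
  have hEa : ∀ x, E x = T 1 x := fun x => by
    rw [hE, ContinuousLinearEquiv.coeFn_ofBijective]
  set M : ℝ := ‖(E.symm : Ell1 →L[ℝ] Ell1)‖ + 1 with hM
  have hM0 : 0 < M := by positivity
  have hb1 : ∀ x, M⁻¹ * ‖x‖ ≤ ‖T 1 x‖ := by
    intro x
    have h1 : ‖E.symm (E x)‖ ≤ ‖(E.symm : Ell1 →L[ℝ] Ell1)‖ * ‖E x‖ :=
      (E.symm : Ell1 →L[ℝ] Ell1).le_opNorm (E x)
    rw [E.symm_apply_apply, hEa] at h1
    rw [inv_mul_le_iff₀ hM0]
    refine h1.trans ?_
    apply mul_le_mul_of_nonneg_right _ (norm_nonneg _)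
    linarith
  obtain ⟨R, hR⟩ := uniform (inv_pos.2 hM0)
  obtain ⟨A, -, hA⟩ := hR T hT hb1
  exact ⟨A, hA⟩

end Pool.Agent.Results.MP_725863_an.UniformMarkovGroup
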